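import Mathlib

set_option autoImplicit false
set_option linter.unusedSectionVars false

namespace Pool.Agent.Lib.MP_b28f50_lc.Ins

variable {A : Type} [Fintype A]

/-- All words of length `n`. -/
noncomputable def words : ℕ → List (List A)
  | 0 => [[]]
  | (n + 1) => (words n).flatMap (fun w => (Finset.univ : Finset A).toList.map (fun a => w ++ [a]))

theorem mem_words : ∀ (n : ℕ) (w : List A), w.length = n → w ∈ words n := by
  intro n
  induction n with
  | zero =>
    intro w hw
    have : w = [] := List.length_eq_zero_iff.mp hw
    simp [words, this]
  | succ n ih =>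
    intro w hw
    have hne : w ≠ [] := by
      intro h; simp [h] at hw
    obtain ⟨w', b, rfl⟩ : ∃ w' b, w = w' ++ [b] :=
      ⟨w.dropLast, w.getLast hne, (List.dropLast_append_getLast hne).symm⟩
    have h1 : w'.length = n := by simpa using hw
    simp only [words, List.mem_flatMap]
    refine ⟨w', ih w' h1, ?_⟩
    simp

/-- `t` contains, after position `s.length`, a block of length `k` on which the strategy `π` is
followed. -/
def Run (π : List A → A) (k : ℕ) (s t : List A) : Prop :=
  ∃ m, s.length ≤ m ∧ m + k ≤ t.length ∧
    ∀ i, m ≤ i → i < m + k → t[i]? = some (π (t.take i))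

theorem Run.mono {π : List A → A} {k : ℕ} {s s' t t' : List A}
    (h : Run π k s' t) (hs : s.length ≤ s'.length) (ht : t <+: t') : Run π k s t' := by
  obtain ⟨m, h1, h2, h3⟩ := h
  obtain ⟨u, rfl⟩ := ht
  refine ⟨m, by omega, by simp; omega, ?_⟩
  intro i hi1 hi2
  have hil : i < t.length := by omega
  rw [List.getElem?_append_left hil, List.take_append_of_le_length hil.le]
  exact h3 i hi1 hi2

/-- Follow the strategy. -/
def ep (π : List A → A) : ℕ → List A → List A
  | 0, s => s
  | (k + 1), s => ep π k s ++ [π (ep π k s)]

theorem ep_length (π : List A → A) (k : ℕ) (s : List A) :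
    (ep π k s).length = s.length + k := by
  induction k with
  | zero => simp [ep]
  | succ k ih => simp [ep, ih]; omega

theorem ep_prefix (π : List A → A) (k : ℕ) (s : List A) : s <+: ep π k s := by
  induction k with
  | zero => simp [ep]
  | succ k ih => exact ih.trans (List.prefix_append _ _)

theorem ep_err (π : List A → A) (k : ℕ) (s : List A) :
    ∀ i, s.length ≤ i → i < s.length + k →
      (ep π k s)[i]? = some (π ((ep π k s).take i)) := by
  induction k with
  | zero => intro i h1 h2; omega
  | succ k ih =>
    intro i h1 h2
    have hl := ep_length π k s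
    by_cases h : i < s.length + k
    · have hil : i < (ep π k s).length := by omega
      simp only [ep]
      rw [List.getElem?_append_left hil, List.take_append_of_le_length hil.le]
      exact ih i h1 h
    · have hi : i = (ep π k s).length := by omega
      subst hi
      simp [ep]

theorem run_ep (π : List A → A) (k : ℕ) (s : List A) : Run π k s (ep π k s) :=
  ⟨s.length, le_rfl, by rw [ep_length], ep_err π k s⟩

/-- The moves of level `0`. -/
noncomputable def moves0 (k : ℕ) : List (List A → List A) :=
  (words k).map (fun w s => s ++ w)

theorem exists_move0 (π : List A → A) (k : ℕ) (s : List A) :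
    ∃ m ∈ moves0 k, Run π k s (m s) := by
  obtain ⟨w, hw⟩ := ep_prefix π k s
  have hl : w.length = k := by
    have := ep_length π k s
    rw [← hw] at this
    simp at this
    exact this
  refine ⟨fun s => s ++ w, ?_, ?_⟩
  · exact List.mem_map.mpr ⟨w, mem_words k w hl, rfl⟩
  · have := run_ep π k s
    rw [← hw] at this
    exact this

/-- A map on words which extends its argument. -/
def Ext (m : List A → List A) : Prop := ∀ s, s <+: m s

/-- one step of the tower -/
def step (m : List A → List A) (Φ : List A → ℕ) (m' : List A → List A) :
    List A → List A := fun s => m' (m^[Φ s] s)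

/-- The tower of macro moves: the first move is repeated `Φ` times, then another move is made. -/
def tower : List (List A → List A) → List (List A → ℕ) → (List A → List A)
  | [], _ => id
  | [m], _ => m
  | (m :: _ :: _), [] => m
  | (m :: m' :: ms), (Φ :: Φs) => tower ((m' :: ms).map (step m Φ)) Φs
  termination_by ms _ => ms.length

theorem Ext.iterate {m : List A → List A} (hm : Ext m) (n : ℕ) (s : List A) :
    s <+: m^[n] s := by
  induction n with
  | zero => simp
  | succ n ih =>
    rw [Function.iterate_succ_apply']
    exact ih.trans (hm _)

theorem Ext.step {m m' : List A → List A} (hm : Ext m) (hm' : Ext m')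
    (Φ : List A → ℕ) : Ext (step m Φ m') := by
  intro s
  exact (hm.iterate (Φ s) s).trans (hm' _)

theorem tower_ext : ∀ (ms : List (List A → List A)) (Φs : List (List A → ℕ)),
    (∀ m ∈ ms, Ext m) → Ext (tower ms Φs)
  | [], _, _ => by
      intro s; rw [tower]; simp
  | [m], _, h => by
      rw [tower]; exact h m (by simp)
  | (m :: _ :: _), [], h => by
      rw [tower]; exact h m (by simp)
  | (m :: m' :: ms), (Φ :: Φs), h => by
      rw [tower]
      apply tower_ext
      intro q hq
      obtain ⟨q', hq', rfl⟩ := List.mem_map.mp hq
      exact (h m (by simp)).step (h q' (by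
        simp only [List.mem_cons] at hq' ⊢
        tauto)) Φ
  termination_by ms _ => ms.length

/-- The key lemma: if among the moves `ms` one always produces a block of length `k` on which `π` is
followed then, for suitable members `Φs` of an eventually different family, the tower does. -/
theorem exists_tower (π : List A → A) (k : ℕ) (C : Set (List A → ℕ))
    (hC : ∀ g : List A → ℕ, ∃ Φ ∈ C, {s | Φ s = g s}.Finite) :
    ∀ (N : ℕ) (ms : List (List A → List A)), ms.length = N + 1 → (∀ m ∈ ms, Ext m) →
      (∃ L, ∀ s : List A, L ≤ s.length → ∃ m ∈ ms, Run π k s (m s)) →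
      ∃ Φs : List (List A → ℕ), (∀ Φ ∈ Φs, Φ ∈ C) ∧
        ∃ L, ∀ s : List A, L ≤ s.length → Run π k s (tower ms Φs s) := by
  intro N
  induction N with
  | zero =>
    intro ms hlen hext hL
    obtain ⟨m, rfl⟩ : ∃ m, ms = [m] := List.length_eq_one_iff.mp hlen
    obtain ⟨L, hL⟩ := hL
    refine ⟨[], by simp, L, ?_⟩
    intro s hs
    obtain ⟨m', hm', hr⟩ := hL s hs
    have : m' = m := by simpa using hm'
    subst this
    rw [tower]
    exact hr
  | succ N ih =>
    intro ms hlen hext hL
    match ms, hlen, hext, hL with
    | m :: m' :: ms, hlen, hext, hL =>
      obtain ⟨L, hL⟩ := hL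
      classical
      -- the least index of a step which contains a run
      let P : List A → ℕ → Prop := fun s n => Run π k (m^[n] s) (m^[n + 1] s)
      let g : List A → ℕ := fun s => if h : ∃ n, P s n then Nat.find h else 0
      obtain ⟨Φ, hΦC, hΦ⟩ := hC g
      obtain ⟨L', hL'⟩ : ∃ L', ∀ s : List A, L' ≤ s.length → Φ s ≠ g s := by
        obtain ⟨B, hB⟩ := (hΦ.image List.length).bddAbove
        refine ⟨B + 1, fun s hs h => ?_⟩
        have := hB (Set.mem_image_of_mem List.length (show s ∈ {s | Φ s = g s} from h))
        omega
      have hm : Ext m := hext m (by simp)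
      obtain ⟨Φs, h1, L'', h2⟩ := ih ((m' :: ms).map (step m Φ)) (by simpa using hlen) (by
        intro q hq
        obtain ⟨q', hq', rfl⟩ := List.mem_map.mp hq
        exact hm.step (hext q' (by
          simp only [List.mem_cons] at hq' ⊢
          tauto)) Φ) (by
        refine ⟨max L L', ?_⟩
        intro s hs
        have hsL : L ≤ s.length := le_trans (le_max_left _ _) hs
        have hsL' : L' ≤ s.length := le_trans (le_max_right _ _) hs
        have hne := hL' s hsL'
        by_cases hex : ∃ n, P s n ∧ n < Φ s
        · -- a run occurs before
          obtain ⟨n, hn, hlt⟩ := hex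
          refine ⟨step m Φ m', List.mem_map.mpr ⟨m', by simp, rfl⟩, ?_⟩
          have e1 : s.length ≤ (m^[n] s).length := (hm.iterate n s).length_le
          have e2 : m^[n + 1] s <+: step m Φ m' s := by
            have h3 : m^[n + 1] s <+: m^[Φ s] s := by
              have h4 : m^[Φ s] s = m^[Φ s - (n + 1)] (m^[n + 1] s) := by
                rw [← Function.iterate_add_apply]
                congr 2
                omega
              rw [h4]
              exact hm.iterate _ _
            exact h3.trans (hext m' (by simp) _)
          exact Run.mono hn e1 e2
        · push Not at hex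
          have hnot : ¬ P s (Φ s) := by
            intro hP
            apply hne
            have hE : ∃ n, P s n := ⟨_, hP⟩
            have hg : g s = Nat.find hE := by
              simp only [g]
              rw [dif_pos hE]
            rw [hg]
            apply le_antisymm
            · exact hex _ (Nat.find_spec hE)
            · exact Nat.find_min' hE hP
          set t := m^[Φ s] s with ht
          have htL : L ≤ t.length := le_trans hsL (hm.iterate _ s).length_le
          obtain ⟨q, hq, hr⟩ := hL t htL
          have hqm : q ≠ m := by
            rintro rfl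
            apply hnot
            show Run π k (q^[Φ s] s) (q^[Φ s + 1] s)
            rw [Function.iterate_succ_apply']
            exact hr
          have hq' : q ∈ m' :: ms := by
            simp only [List.mem_cons] at hq ⊢
            tauto
          refine ⟨step m Φ q, List.mem_map.mpr ⟨q, hq', rfl⟩, ?_⟩
          exact Run.mono hr (hm.iterate _ s).length_le (List.prefix_refl _))
      refine ⟨Φ :: Φs, ?_, L'', ?_⟩
      · intro Ψ hΨ
        rcases List.mem_cons.mp hΨ with rfl | h
        · exact hΦC
        · exact h1 Ψ h
      · intro s hs
        rw [tower]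
        exact h2 s hs

end Pool.Agent.Lib.MP_b28f50_lc.Ins
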