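import Pool.Agent.Lib.MP_b28f50_lc.Meet
import Pool.Agent.Lib.MP_b28f50_lc.Ins.Tower

set_option autoImplicit false
set_option linter.unusedSectionVars false
open Filter Cardinal

namespace Pool.Agent.Lib.MP_b28f50_lc.Ins

variable {A : Type}

/-! ### The universal words -/

/-- A word which, appended to any member of the list, passes through a value of `m`. -/
def uw (m : List A → List A) : List (List A) → List A
  | [] => []
  | (s :: Ls) => uw m Ls ++ (m (s ++ uw m Ls)).drop (s ++ uw m Ls).length

theorem uw_spec {m : List A → List A} (hm : Ext m) :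
    ∀ (Ls : List (List A)) (s : List A), s ∈ Ls →
      ∃ s', s <+: s' ∧ m s' <+: s ++ uw m Ls := by
  intro Ls
  induction Ls with
  | nil => intro s hs; simp at hs
  | cons t Ls ih =>
    intro s hs
    rcases List.mem_cons.mp hs with rfl | hs
    · refine ⟨s ++ uw m Ls, List.prefix_append _ _, ?_⟩
      have h1 : m (s ++ uw m Ls) =
          (s ++ uw m Ls) ++ (m (s ++ uw m Ls)).drop (s ++ uw m Ls).length := by
        obtain ⟨w, hw⟩ := hm (s ++ uw m Ls)
        rw [← hw]
        simp
      rw [uw, ← List.append_assoc, ← h1]
    · obtain ⟨s', h1, h2⟩ := ih s hs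
      refine ⟨s', h1, h2.trans ?_⟩
      rw [uw, ← List.append_assoc]
      exact List.prefix_append _ _

/-- the prefix of length `n` of `x` -/
def pre (x : ℕ → A) (n : ℕ) : List A := (List.range n).map x

@[simp] theorem pre_length (x : ℕ → A) (n : ℕ) : (pre x n).length = n := by simp [pre]

theorem take_pre (x : ℕ → A) (n i : ℕ) (h : i ≤ n) : (pre x n).take i = pre x i := by
  unfold pre
  rw [← List.map_take, List.take_range, min_eq_left h]

theorem pre_prefix (x : ℕ → A) {t : List A} {n : ℕ} (h : t <+: pre x n) :
    t = pre x t.length := by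
  have h1 := List.prefix_iff_eq_take.mp h
  have h2 : t.length ≤ n := by simpa using h.length_le
  rw [take_pre x n _ h2] at h1
  exact h1

theorem getElem?_pre (x : ℕ → A) (n i : ℕ) (h : i < n) : (pre x n)[i]? = some (x i) := by
  simp [pre, h]

theorem pre_add (d : A) (x : ℕ → A) (n : ℕ) (w : List A)
    (h : ∀ i < w.length, x (n + i) = w.getD i d) :
    pre x (n + w.length) = pre x n ++ w := by
  apply List.ext_getElem?
  intro i
  by_cases hi : i < n
  · rw [getElem?_pre x _ i (by omega), List.getElem?_append_left (by simpa using hi),
      getElem?_pre x n i hi]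
  · by_cases hi2 : i < n + w.length
    · rw [getElem?_pre x _ i hi2, List.getElem?_append_right (by simpa using hi)]
      have h1 : i - n < w.length := by omega
      have h2 := h (i - n) h1
      have h3 : n + (i - n) = i := by omega
      rw [h3] at h2
      rw [h2]
      simp [List.getD_eq_getElem?_getD, List.getElem?_eq_getElem h1]
    · rw [List.getElem?_eq_none (by simp; omega), List.getElem?_eq_none (by simp; omega)]

/-! ### The selection -/

/-- select an entry of `p` whose first coordinate has not been used -/
def sel (used : List ℕ) (p : List (ℕ × List A)) : Option (ℕ × List A) :=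
  p.find? (fun q => decide (q.1 ∉ used))

/-- the list of used indices -/
def usedL (P : ℕ → List (ℕ × List A)) : ℕ → List ℕ
  | 0 => []
  | (m + 1) => match sel (usedL P m) (P m) with
    | some q => q.1 :: usedL P m
    | none => usedL P m

theorem usedL_length (P : ℕ → List (ℕ × List A)) (m : ℕ) : (usedL P m).length ≤ m := by
  induction m with
  | zero => simp [usedL]
  | succ m ih =>
    rw [usedL]
    cases h : sel (usedL P m) (P m) with
    | none => simp; omega
    | some q => simp; omega

theorem usedL_mono (P : ℕ → List (ℕ × List A)) {m m' : ℕ} (h : m ≤ m') :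
    usedL P m ⊆ usedL P m' := by
  induction m', h using Nat.le_induction with
  | base => exact fun _ h => h
  | succ n hn ih =>
    intro a ha
    have h1 := ih ha
    rw [usedL]
    cases h : sel (usedL P n) (P n) with
    | none => exact h1
    | some q => exact List.mem_cons_of_mem _ h1

theorem sel_some {used : List ℕ} {p : List (ℕ × List A)} {q : ℕ × List A}
    (h : sel used p = some q) : q ∈ p ∧ q.1 ∉ used := by
  refine ⟨List.mem_of_find?_eq_some h, ?_⟩
  have := List.find?_some h
  simpa using this

theorem sel_inj (P : ℕ → List (ℕ × List A)) {m m' : ℕ} {q q' : ℕ × List A}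
    (h : sel (usedL P m) (P m) = some q) (h' : sel (usedL P m') (P m') = some q')
    (hlt : m < m') : q.1 ≠ q'.1 := by
  intro heq
  have h1 : q.1 ∈ usedL P (m + 1) := by
    rw [usedL, h]; simp
  have h2 := usedL_mono P (show m + 1 ≤ m' from hlt) h1
  rw [heq] at h2
  exact (sel_some h').2 h2

theorem sel_eq (P : ℕ → List (ℕ × List A)) {m m' : ℕ} {q q' : ℕ × List A}
    (h : sel (usedL P m) (P m) = some q) (h' : sel (usedL P m') (P m') = some q')
    (heq : q.1 = q'.1) : q = q' ∧ m = m' := by
  rcases lt_trichotomy m m' with hlt | rfl | hlt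
  · exact absurd heq (sel_inj P h h' hlt)
  · rw [h] at h'
    exact ⟨Option.some_injective _ h', rfl⟩
  · exact absurd heq.symm (sel_inj P h' h hlt)

end Pool.Agent.Lib.MP_b28f50_lc.Ins
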