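import Pool.Agent.Lib.MP_b28f50_lc.Bart
import Pool.Agent.Lib.MP_b28f50_lc.Ins.Meet

set_option autoImplicit false
open Filter Cardinal

namespace Pool.Agent.Lib.MP_b28f50_lc.Ins

/-- Fewer than `lam` extending maps can be met infinitely often by a single sequence. -/
theorem exists_meet {A : Type} [Fintype A] [Encodable A] [Inhabited A] {ι : Type} (G : ι → List A → List A) (hG : ∀ i, Ext (G i))
    (hι : Cardinal.mk ι < lam) :
    ∃ x : ℕ → A, ∀ i, ∀ b : ℕ, ∃ n, b ≤ n ∧ ∃ N, G i (pre x n) = pre x N := by
  classical
  -- universal words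
  let u : ι → ℕ → List A := fun i n => uw (G i) (words n)
  let h : ι → ℕ → ℕ := fun i n => (Finset.range (n + 1)).sup (fun m => m + (u i m).length)
  have hmono : ∀ i, Monotone (h i) := by
    intro i a b hab
    exact Finset.sup_mono (Finset.range_mono (by omega))
  have hle : ∀ i n, n + (u i n).length ≤ h i n := by
    intro i n
    exact Finset.le_sup (f := fun m => m + (u i m).length) (Finset.mem_range.mpr (Nat.lt_succ_self n))
  -- first real
  obtain ⟨g1, hg1⟩ := exists_io_nat (fun i n => h i (h i n) + 1) hι
  let ub : ℕ → ℕ := fun n => (Finset.range (n + 1)).sup g1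
  have hub : Monotone ub := by
    intro a b hab
    exact Finset.sup_mono (Finset.range_mono (by omega))
  have hX : ∀ i, {j | h i (nn ub j) ≤ nn ub (j + 1)}.Infinite := by
    intro i
    apply catch_infinite (h i) ub (hmono i) hub
    refine (hg1 i).mono ?_
    intro n hn
    have hn : h i (h i n) + 1 = g1 n := hn
    have : g1 n ≤ ub n := Finset.le_sup (f := g1) (Finset.mem_range.mpr (Nat.lt_succ_self n))
    show h i (h i n) < ub n
    omega
  -- second real
  let X : ι → ℕ → Prop := fun i j => h i (nn ub j) ≤ nn ub (j + 1)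
  have hX' : ∀ i, (Set.ofPred (X i)).Infinite := hX
  let f : ι → ℕ → List (ℕ × List A) := fun i m =>
    (List.range (m + 1)).map (fun l => (Nat.nth (X i) l, u i (nn ub (Nat.nth (X i) l))))
  obtain ⟨g2, hg2⟩ := exists_io f hι
  let P : ℕ → List (ℕ × List A) := fun m => (g2 m).getD []
  let Aw : ℕ → List A := fun j =>
    if hj : ∃ m w, sel (usedL P m) (P m) = some (j, w) then hj.choose_spec.choose else []
  have hA : ∀ j m w, sel (usedL P m) (P m) = some (j, w) → Aw j = w := by
    intro j m w hs
    have hj : ∃ m w, sel (usedL P m) (P m) = some (j, w) := ⟨m, w, hs⟩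
    have h1 := hj.choose_spec.choose_spec
    have h2 : Aw j = hj.choose_spec.choose := by
      simp only [Aw]; rw [dif_pos hj]
    rw [h2]
    have := (sel_eq P h1 hs rfl).1
    exact (Prod.mk.inj this).2
  -- the sequence
  let blk : ℕ → ℕ := fun n => (exists_blk ub n).choose
  have hblk : ∀ n, nn ub (blk n) ≤ n ∧ n < nn ub (blk n + 1) := fun n =>
    (exists_blk ub n).choose_spec
  let x : ℕ → A := fun n => (Aw (blk n)).getD (n - nn ub (blk n)) default
  refine ⟨x, fun i b => ?_⟩
  -- good indices
  let S : Set ℕ := {m | g2 m = some (f i m)}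
  have hS : S.Infinite := hg2 i
  have hgood : ∀ m ∈ S, ∃ j, X i j ∧ sel (usedL P m) (P m) = some (j, u i (nn ub j)) := by
    intro m hm
    have hPm : P m = f i m := by
      have : g2 m = some (f i m) := hm
      simp [P, this]
    -- there is an unused entry
    have hex : ∃ l < m + 1, Nat.nth (X i) l ∉ usedL P m := by
      by_contra hcon
      push Not at hcon
      have h1 : ((Finset.range (m + 1)).image (Nat.nth (X i))) ⊆ (usedL P m).toFinset := by
        intro a ha
        obtain ⟨l, hl, rfl⟩ := Finset.mem_image.mp ha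
        exact List.mem_toFinset.mpr (hcon l (Finset.mem_range.mp hl))
      have h2 := Finset.card_le_card h1
      rw [Finset.card_image_of_injective _ (Nat.nth_injective (hX' i)), Finset.card_range] at h2
      have h3 := List.toFinset_card_le (usedL P m)
      have h4 := usedL_length P m
      omega
    obtain ⟨l, hl, hlu⟩ := hex
    have hmem : (Nat.nth (X i) l, u i (nn ub (Nat.nth (X i) l))) ∈ P m := by
      rw [hPm]
      exact List.mem_map.mpr ⟨l, List.mem_range.mpr hl, rfl⟩
    cases hs : sel (usedL P m) (P m) with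
    | none =>
      exfalso
      have := List.find?_eq_none.mp hs _ hmem
      simp [hlu] at this
    | some q =>
      have h1 := (sel_some hs).1
      rw [hPm] at h1
      obtain ⟨l', -, rfl⟩ := List.mem_map.mp h1
      exact ⟨_, Nat.nth_mem_of_infinite (hX' i) l', rfl⟩
  choose! jj hj1 hj2 using hgood
  have hinj : Set.InjOn jj S := by
    intro a ha c hc hac
    exact (sel_eq P (hj2 a ha) (hj2 c hc) hac).2
  have hinf : (jj '' S).Infinite := hS.image hinj
  obtain ⟨j, ⟨m, hm, rfl⟩, hjb⟩ := hinf.exists_gt b
  set j := jj m with hjdef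
  have hAj : Aw j = u i (nn ub j) := hA _ _ _ (hj2 m hm)
  have hfit : nn ub j + (Aw j).length ≤ nn ub (j + 1) := by
    rw [hAj]
    exact (hle i _).trans (hj1 m hm)
  have hpre : pre x (nn ub j + (Aw j).length) = pre x (nn ub j) ++ Aw j := by
    apply pre_add default
    intro a ha
    have hb : blk (nn ub j + a) = j := by
      apply blk_unique ub (hblk _)
      constructor <;> omega
    show (Aw (blk (nn ub j + a))).getD (nn ub j + a - nn ub (blk (nn ub j + a))) default = _
    rw [hb]
    congr 1
    omega
  obtain ⟨s', hs1, hs2⟩ := uw_spec (hG i) (words (nn ub j)) (pre x (nn ub j))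
    (mem_words _ _ (by simp))
  have hs3 : G i s' <+: pre x (nn ub j + (Aw j).length) := by
    rw [hpre, hAj]; exact hs2
  have hs4 : s' <+: pre x (nn ub j + (Aw j).length) := (hG i s').trans hs3
  have e1 := pre_prefix x hs4
  have e2 := pre_prefix x hs3
  refine ⟨s'.length, ?_, (G i s').length, ?_⟩
  · have h1 := hs1.length_le
    have h2 := (nn_mono ub).le_apply (x := j)
    simp only [pre_length] at h1
    have h3 : b < j := hjb
    omega
  · rw [← e1]; exact e2

end Pool.Agent.Lib.MP_b28f50_lc.Ins
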