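import Pool.Agent.Lib.MP_b28f50_lc.Ins.Bart

set_option autoImplicit false
open Filter Cardinal

namespace Pool.Agent.Lib.MP_b28f50_lc.Ins

/-- the sequences which continue a word -/
theorem isOpen_cyl (s : List Bool) : IsOpen {x : ℕ → Bool | pre x s.length = s} := by
  have h : {x : ℕ → Bool | pre x s.length = s} =
      ⋂ i ∈ Finset.range s.length, {x : ℕ → Bool | x i = s.getD i false} := by
    ext x
    simp only [Set.mem_ofPred_eq, Set.mem_iInter, Finset.mem_range]
    constructor
    · intro h i hi
      have h1 := getElem?_pre x s.length i hi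
      rw [h] at h1
      simp [List.getD_eq_getElem?_getD, h1]
    · intro h
      apply List.ext_getElem?
      intro i
      by_cases hi : i < s.length
      · rw [getElem?_pre x _ i hi, h i hi]
        simp [List.getD_eq_getElem?_getD, List.getElem?_eq_getElem hi]
      · rw [List.getElem?_eq_none (by simpa using hi), List.getElem?_eq_none (by omega)]
  rw [h]
  refine isOpen_biInter_finset ?_
  intro i _
  have h1 : IsOpen ({s.getD i false} : Set Bool) := isOpen_discrete _
  exact h1.preimage (continuous_apply (A := fun _ : ℕ => Bool) i)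

/-- every neighbourhood contains a cylinder -/
theorem exists_cyl {U : Set (ℕ → Bool)} (hU : IsOpen U) {x : ℕ → Bool} (hx : x ∈ U) (b : ℕ) :
    ∃ n, b ≤ n ∧ ∀ y, pre y n = pre x n → y ∈ U := by
  obtain ⟨I, u, hu, hsub⟩ := isOpen_pi_iff.mp hU x hx
  refine ⟨max b (I.sup id + 1), le_max_left _ _, ?_⟩
  intro y hy
  apply hsub
  intro i hi
  have h1 : i < max b (I.sup id + 1) := by
    have : i ≤ I.sup id := Finset.le_sup (f := id) hi
    exact lt_of_lt_of_le (Nat.lt_succ_of_le this) (le_max_right _ _)
  have h2 := getElem?_pre y _ i h1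
  rw [hy, getElem?_pre x _ i h1] at h2
  have h3 : x i = y i := Option.some_injective _ h2
  rw [← h3]
  exact (hu i hi).2

/-- a nowhere dense set is avoided by extending words -/
theorem exists_ext {N : Set (ℕ → Bool)} (hN : IsNowhereDense N) :
    ∃ G : List Bool → List Bool, Ext G ∧ ∀ s : List Bool, ∀ y : ℕ → Bool, ∀ m,
      G s = pre y m → y ∉ N := by
  have h : ∀ s : List Bool, ∃ t, s <+: t ∧ ∀ y : ℕ → Bool, ∀ m, t = pre y m → y ∉ N := by
    intro s
    have hne : ({x : ℕ → Bool | pre x s.length = s} \ closure N).Nonempty := by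
      rw [Set.sdiff_nonempty]
      intro hsub
      have h1 : {x : ℕ → Bool | pre x s.length = s} ⊆ interior (closure N) :=
        interior_maximal hsub (isOpen_cyl s)
      rw [hN] at h1
      have h2 : (fun i => s.getD i false) ∈ {x : ℕ → Bool | pre x s.length = s} := by
        show pre (fun i => s.getD i false) s.length = s
        apply List.ext_getElem?
        intro i
        by_cases hi : i < s.length
        · rw [getElem?_pre _ _ i hi]
          simp [List.getD_eq_getElem?_getD, List.getElem?_eq_getElem hi]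
        · rw [List.getElem?_eq_none (by simpa using hi), List.getElem?_eq_none (by omega)]
      exact h1 h2
    obtain ⟨x, hx1, hx2⟩ := hne
    obtain ⟨n, hn, hcyl⟩ := exists_cyl (isClosed_closure (s := N)).isOpen_compl
      (show x ∈ (closure N)ᶜ from hx2) s.length
    refine ⟨pre x n, ?_, ?_⟩
    · rw [List.prefix_iff_eq_take, take_pre x n _ hn]
      exact hx1.symm
    · intro y m hm hy
      have hmn : n = m := by
        have := congrArg List.length hm
        simpa using this
      subst hmn
      exact hcyl y hm.symm (subset_closure hy)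
  choose G hG1 hG2 using h
  exact ⟨G, hG1, hG2⟩

/-- A covering of the Cantor space by meagre sets has at least `lam` members. -/
theorem lam_le_of_cover (C : Set (Set (ℕ → Bool))) (hC : ∀ M ∈ C, IsMeagre M)
    (hU : ⋃₀ C = Set.univ) : lam ≤ Cardinal.mk C := by
  by_contra hcon
  push Not at hcon
  have h1 : ∀ M : C, ∃ N : ℕ → Set (ℕ → Bool), (∀ n, IsNowhereDense (N n)) ∧ M.1 ⊆ ⋃ n, N n := by
    intro M
    obtain ⟨S, hS1, hS2, hS3⟩ := isMeagre_iff_countable_union_isNowhereDense.mp (hC M.1 M.2)
    rcases S.eq_empty_or_nonempty with rfl | hne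
    · refine ⟨fun _ => ∅, fun _ => isNowhereDense_empty, ?_⟩
      simpa using hS3
    · obtain ⟨f, hf⟩ := hS2.exists_eq_range hne
      refine ⟨f, fun n => hS1 _ (by rw [hf]; exact ⟨n, rfl⟩), ?_⟩
      rw [hf, Set.sUnion_range] at hS3
      exact hS3
  choose N hN1 hN2 using h1
  have h2 : ∀ p : C × ℕ, ∃ G : List Bool → List Bool, Ext G ∧ ∀ s : List Bool,
      ∀ y : ℕ → Bool, ∀ m, G s = pre y m → y ∉ N p.1 p.2 := fun p => exists_ext (hN1 p.1 p.2)
  choose G hG1 hG2 using h2
  have hι : Cardinal.mk (C × ℕ) < lam := by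
    rw [mk_prod, lift_id, lift_id]
    exact mul_lt_of_lt aleph0_lt_lam.le hcon (by rw [mk_nat]; exact aleph0_lt_lam)
  obtain ⟨x, hx⟩ := exists_meet G hG1 hι
  have h3 : x ∈ ⋃₀ C := by rw [hU]; exact Set.mem_univ _
  obtain ⟨M, hM, hxM⟩ := h3
  obtain ⟨n, hn⟩ := Set.mem_iUnion.mp (hN2 ⟨M, hM⟩ hxM)
  obtain ⟨a, -, m, hm⟩ := hx (⟨M, hM⟩, n) 0
  exact hG2 (⟨M, hM⟩, n) _ x m hm hn

end Pool.Agent.Lib.MP_b28f50_lc.Ins
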