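import Pool.Agent.Lib.MP_b28f50_lc.Ins.Bart

set_option autoImplicit false
open Filter Cardinal

namespace Pool.Agent.Lib.MP_b28f50_lc.Ins

/-- For every finite alphabet there is a family of at most `lam` sequences such that every countable
set of strategies is followed, on arbitrarily long blocks infinitely often, by one member of the
family. -/
theorem exists_family (A : Type) [Fintype A] [Encodable A] [Inhabited A] :
    ∃ E : Set (ℕ → A), Cardinal.mk E ≤ lam ∧
      ∀ π : ℕ → List A → A, ∃ f ∈ E, ∀ j k : ℕ,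
        ∃ᶠ n in atTop, ∀ i ∈ Finset.Ico n (n + k), f i = π j ((List.range i).map f) := by
  classical
  obtain ⟨C0, hC0, hc⟩ := lam_spec
  have hWc : Cardinal.mk lam.ord.ToType = Cardinal.mk C0 := by rw [mk_ord_toType, hc]
  obtain ⟨e⟩ := Cardinal.eq.mp hWc
  have hIio : ∀ ξ : lam.ord.ToType, Cardinal.mk (Set.Iio ξ) < lam := fun ξ => by
    simpa using mk_Iio_lt ξ
  -- countably many elements are bounded
  have hbd : ∀ s : ℕ → lam.ord.ToType, ∃ ξ, ∀ n, s n < ξ := by
    intro s
    by_contra hcon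
    push Not at hcon
    apply not_ED_iUnion (fun n => (fun y => (e y).1) '' (Set.Iic (s n)))
    · intro n
      refine lt_of_le_of_lt mk_image_le ?_
      have h1 : Set.Iic (s n) = insert (s n) (Set.Iio (s n)) := by
        ext y; simp [le_iff_eq_or_lt]
      rw [h1]
      refine lt_of_le_of_lt (mk_insert_le) ?_
      exact add_lt_of_lt aleph0_lt_lam.le (hIio _) one_lt_lam
    · have h2 : (⋃ n, (fun y => (e y).1) '' (Set.Iic (s n))) = C0 := by
        ext Φ
        simp only [Set.mem_iUnion, Set.mem_image, Set.mem_Iic]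
        constructor
        · rintro ⟨n, y, -, rfl⟩; exact (e y).2
        · intro h
          obtain ⟨n, hn⟩ := hcon (e.symm ⟨Φ, h⟩)
          exact ⟨n, _, hn, by simp⟩
      rw [h2]
      exact hC0
  -- the functions on words
  obtain ⟨q⟩ : Nonempty (List A ≃ ℕ) := by
    exact nonempty_equiv_of_countable
  let F : lam.ord.ToType → List A → ℕ := fun y => (e y).1 ∘ q
  have hF : ∀ g : List A → ℕ, ∃ Φ ∈ Set.range F, {s | Φ s = g s}.Finite := by
    intro g
    obtain ⟨Φ, hΦ, hfin⟩ := hC0 (g ∘ q.symm)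
    refine ⟨F (e.symm ⟨Φ, hΦ⟩), ⟨_, rfl⟩, ?_⟩
    refine Set.Finite.subset (hfin.preimage (f := q) q.injective.injOn) ?_
    intro s hs
    have hs : F (e.symm ⟨Φ, hΦ⟩) s = g s := hs
    show Φ (q s) = (g ∘ q.symm) (q s)
    simpa [F] using hs
  -- the sequences
  let G : (ξ : lam.ord.ToType) → ℕ × List (Set.Iio ξ) → List A → List A :=
    fun ξ p => tower (moves0 p.1) (p.2.map (fun y => F y.1))
  have hG : ∀ ξ p, Ext (G ξ p) := by
    intro ξ p
    apply tower_ext
    intro m hm
    obtain ⟨w, -, rfl⟩ := List.mem_map.mp hm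
    intro s
    exact List.prefix_append _ _
  have hι : ∀ ξ : lam.ord.ToType, Cardinal.mk (ℕ × List (Set.Iio ξ)) < lam := by
    intro ξ
    rw [mk_prod, lift_id, lift_id]
    refine mul_lt_of_lt aleph0_lt_lam.le ?_ ?_
    · rw [mk_nat]; exact aleph0_lt_lam
    · exact lt_of_le_of_lt (mk_list_le_max _) (max_lt aleph0_lt_lam (hIio ξ))
  have hx : ∀ ξ : lam.ord.ToType, ∃ x : ℕ → A, ∀ i, ∀ b : ℕ, ∃ n, b ≤ n ∧ ∃ N,
      G ξ i (pre x n) = pre x N := fun ξ => exists_meet (G ξ) (hG ξ) (hι ξ)
  choose x hx using hx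
  refine ⟨Set.range x, ?_, ?_⟩
  · refine mk_range_le.trans ?_
    rw [mk_ord_toType]
  · intro π
    -- towers for every `j` and `k`
    have hT : ∀ p : ℕ × ℕ, ∃ l : List lam.ord.ToType, ∃ L, ∀ s : List A, L ≤ s.length →
        Run (π p.1) p.2 s (tower (moves0 p.2) (l.map F) s) := by
      rintro ⟨j, k⟩
      have hne : (moves0 (A := A) k).length ≠ 0 := by
        obtain ⟨m, hm, -⟩ := exists_move0 (π j) k []
        intro h0
        rw [List.length_eq_zero_iff.mp h0] at hm
        simp at hm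
      obtain ⟨N, hN⟩ := Nat.exists_eq_succ_of_ne_zero hne
      obtain ⟨Φs, h1, L, h2⟩ := exists_tower (π j) k (Set.range F) hF N (moves0 k) hN (by
        intro m hm
        obtain ⟨w, -, rfl⟩ := List.mem_map.mp hm
        intro s
        exact List.prefix_append _ _) ⟨0, fun s _ => exists_move0 (π j) k s⟩
      have h3 : Φs ∈ Set.range (List.map F) := by
        rw [Set.range_list_map]; exact h1
      obtain ⟨l, rfl⟩ := h3
      exact ⟨l, L, h2⟩
    choose l L hL using hT
    have hne : Nonempty lam.ord.ToType := by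
      rw [← mk_ne_zero_iff, mk_ord_toType]
      exact (lt_trans one_pos one_lt_lam).ne'
    have hs : ∀ p, ∃ s, ∀ y ∈ (l p).toFinset, y ≤ s := fun p => (l p).toFinset.exists_le
    choose s hs using hs
    obtain ⟨ξ, hξ⟩ := hbd (fun n => s (Nat.unpair n))
    refine ⟨x ξ, ⟨ξ, rfl⟩, fun j k => ?_⟩
    rw [frequently_atTop]
    intro a
    have hmem : ∀ y ∈ l (j, k), y ∈ Set.Iio ξ := fun y hy =>
      lt_of_le_of_lt (hs (j, k) y (List.mem_toFinset.mpr hy)) (by
        have := hξ (Nat.pair j k)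
        simpa using this)
    obtain ⟨n, hn, N, hN⟩ := hx ξ (k, (l (j, k)).attachWith (· ∈ Set.Iio ξ) hmem)
      (max a (L (j, k)))
    have hGe : G ξ (k, (l (j, k)).attachWith (· ∈ Set.Iio ξ) hmem) =
        tower (moves0 k) ((l (j, k)).map F) := by
      show tower (moves0 k) (((l (j, k)).attachWith (· ∈ Set.Iio ξ) hmem).map
        (fun y => F y.1)) = _
      rw [List.attachWith_map_val]
    rw [hGe] at hN
    have hR := hL (j, k) (pre (x ξ) n) (by
      rw [pre_length]; exact (le_max_right _ _).trans hn)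
    rw [hN] at hR
    obtain ⟨m, h1, h2, h3⟩ := hR
    rw [pre_length] at h1 h2
    refine ⟨m, (le_max_left a (L (j, k))).trans (hn.trans h1), ?_⟩
    intro i hi
    obtain ⟨hi1, hi2⟩ := Finset.mem_Ico.mp hi
    have h4 := h3 i hi1 hi2
    rw [getElem?_pre _ _ _ (by omega), take_pre _ _ _ (by omega)] at h4
    exact Option.some_injective _ h4

end Pool.Agent.Lib.MP_b28f50_lc.Ins
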